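import Pool.Agent.Helper35.HC.StF

/-!
# Project HC: module RNT
-/

set_option autoImplicit false

namespace Helper11.HC

open Helper35.HC Helper35.HSF Helper35.MS Helper35.PI Helper35.PI2 Helper32.CL
open scoped ContDiff Manifold Topology ENNReal BigOperators
open MeasureTheory Set Filter

private theorem small_rpow {α : ℝ} (hα : 0 < α) {δ : ℝ} (hδ : 0 < δ) :
    ∃ τ0 : ℝ, 0 < τ0 ∧ ∀ τ : ℝ, 0 < τ → τ ≤ τ0 → τ ^ α ≤ δ := by
  refine ⟨δ ^ (1 / α), Real.rpow_pos_of_pos hδ _, fun τ h0 h1 => ?_⟩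
  calc τ ^ α ≤ (δ ^ (1 / α)) ^ α := Real.rpow_le_rpow h0.le h1 hα.le
    _ = δ := by rw [← Real.rpow_mul hδ.le, one_div_mul_cancel hα.ne', Real.rpow_one]

/-- the algebra of the centre -/
private theorem centre {V : Type} [NormedAddCommGroup V] [InnerProductSpace ℝ V] (F x H : V)
    (Y n s : ℝ) (hY : Y ≠ 0) (hn : n ≠ 0) :
    H + (1 / (2 * s)) • (F - x) = (Y / n) • (F + (n / Y) • H - x) -
      (Y / n - 1 / (2 * s)) • (F - x) := by
  have h1 : (Y / n) • ((n / Y) • H) = H := by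
    rw [smul_smul]
    have : Y / n * (n / Y) = 1 := by
      field_simp
    rw [this, one_smul]
  have h2 : (Y / n) • (F + (n / Y) • H - x) = (Y / n) • (F - x) + H := by
    rw [show F + (n / Y) • H - x = (F - x) + (n / Y) • H by abel, smul_add, h1]
  rw [h2, sub_smul]
  abel

/-- the estimate of `H + (F - x)/(2s)` -/
private theorem est (Y n s C C' α a b : ℝ) (hs : 0 < s) (hs1 : s ≤ 1) (hn : 0 < n)
    (hα : 0 < α) (hC : 0 < C) (hC' : 0 < C') (hyy : |2 / n * (s * Y) - 1| ≤ C * s ^ α)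
    (hsm : C * s ^ α ≤ 1 / 2) (hY : 0 ≤ Y) (ha : a ≤ C' * s ^ (1 / 2 + α / 8)) (ha0 : 0 ≤ a)
    (hb : b ≤ C' * Real.sqrt s) (hb0 : 0 ≤ b) :
    Y / n * a + |Y / n - 1 / (2 * s)| * b ≤ (C' + C * C' / 2) * s ^ (α / 8 - 1 / 2) := by
  have h1 : 2 / n * (s * Y) ≤ 3 / 2 := by
    have := (abs_le.1 (hyy.trans hsm)).2
    linarith
  have h2 : Y / n ≤ 1 / s := by
    rw [le_div_iff₀ hs]
    have : 2 / n * (s * Y) = 2 * (Y / n * s) := by
      field_simp
    linarith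
  have h3 : |Y / n - 1 / (2 * s)| ≤ C * s ^ α / (2 * s) := by
    have e : Y / n - 1 / (2 * s) = (2 / n * (s * Y) - 1) / (2 * s) := by
      field_simp
    rw [e, abs_div, abs_of_pos (by positivity : (0 : ℝ) < 2 * s)]
    exact div_le_div_of_nonneg_right hyy (by positivity)
  have hYn : 0 ≤ Y / n := div_nonneg hY hn.le
  have p1 : Y / n * a ≤ C' * s ^ (α / 8 - 1 / 2) := by
    calc Y / n * a ≤ 1 / s * (C' * s ^ (1 / 2 + α / 8)) := mul_le_mul h2 ha ha0 (by positivity)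
      _ = C' * (s ^ (1 / 2 + α / 8) / s) := by ring
      _ = C' * s ^ (α / 8 - 1 / 2) := by
          rw [← Real.rpow_sub_one hs.ne']
          congr 2
          ring
  have p2 : |Y / n - 1 / (2 * s)| * b ≤ C * C' / 2 * s ^ (α / 8 - 1 / 2) := by
    calc |Y / n - 1 / (2 * s)| * b ≤ C * s ^ α / (2 * s) * (C' * Real.sqrt s) :=
          mul_le_mul h3 hb hb0 (by positivity)
      _ = C * C' / 2 * (s ^ α * Real.sqrt s / s) := by
          field_simp
      _ = C * C' / 2 * s ^ (α - 1 / 2) := by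
          rw [Real.sqrt_eq_rpow, ← Real.rpow_add hs, ← Real.rpow_sub_one hs.ne']
          congr 2
          ring
      _ ≤ _ := by
          refine mul_le_mul_of_nonneg_left ?_ (by positivity)
          exact Real.rpow_le_rpow_of_exponent_ge hs hs1 (by linarith)
  calc Y / n * a + |Y / n - 1 / (2 * s)| * b ≤
        C' * s ^ (α / 8 - 1 / 2) + C * C' / 2 * s ^ (α / 8 - 1 / 2) := add_le_add p1 p2
    _ = _ := by ring

/-- rescaling the distance to the sphere -/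
private theorem resc {N : ℕ} (n : ℕ) (hn : 2 ≤ n) (F x v : EE N) (s C' α : ℝ) (hs : 0 < s)
    (hC' : 0 < C')
    (h : ‖F - x - Real.sqrt (2 * n * s) • v‖ ≤ C' * s ^ (1 / 2 + α / 8)) :
    ‖(1 / Real.sqrt (2 * n * s)) • (F - x) - v‖ ≤ C' * s ^ (α / 8) := by
  have hn' : (2 : ℝ) ≤ n := by exact_mod_cast hn
  have h0 : 0 < Real.sqrt (2 * n * s) := Real.sqrt_pos.2 (by positivity)
  have e : (1 / Real.sqrt (2 * n * s)) • (F - x) - v =
      (1 / Real.sqrt (2 * n * s)) • (F - x - Real.sqrt (2 * n * s) • v) := by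
    rw [smul_sub _ (F - x), smul_smul, one_div_mul_cancel h0.ne', one_smul]
  rw [e, norm_smul, Real.norm_eq_abs, abs_of_pos (by positivity)]
  have h1 : Real.sqrt s ≤ Real.sqrt (2 * n * s) := Real.sqrt_le_sqrt (by nlinarith)
  have hss : 0 < Real.sqrt s := Real.sqrt_pos.2 hs
  have h2 : 1 / Real.sqrt (2 * n * s) ≤ 1 / Real.sqrt s := one_div_le_one_div_of_le hss h1
  calc 1 / Real.sqrt (2 * n * s) * ‖F - x - Real.sqrt (2 * n * s) • v‖ ≤
        1 / Real.sqrt s * (C' * s ^ (1 / 2 + α / 8)) :=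
        mul_le_mul h2 h (norm_nonneg _) (by positivity)
    _ = C' * (s ^ (1 / 2 + α / 8) / Real.sqrt s) := by ring
    _ = C' * s ^ (α / 8) := by
        rw [Real.sqrt_eq_rpow, ← Real.rpow_sub hs]
        congr 2
        ring

theorem hRNT (hRTE : StRTE) (hLIM : StLIM) (hLMN : StLMN) (hLSN : StLSN) : StRNT := by
  intro n hn N M _ _ _ _ _ _ T F ts κ₀ δ hP
  have hn0 : (0 : ℝ) < n := by
    have : (2 : ℝ) ≤ n := by exact_mod_cast hn
    linarith
  obtain ⟨t₄, C, α, hts, hD⟩ := hRTE n hn N M T F ts κ₀ δ hP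
  obtain ⟨x, t₅, C', ht₅, hC', h5⟩ := hLIM n hn N M T F t₄ C α hD
  have hC : 0 < C := lt_of_lt_of_le one_pos hD.C1
  have hα := hD.α0
  have ht4 := hD.t4
  have ht5 : t₅ ∈ Ioo 0 T := ⟨ht4.1.trans_le ht₅.1, ht₅.2⟩
  have facts : ∀ t ∈ Ico t₅ T, 0 < T - t ∧ T - t ≤ 1 ∧ t ∈ Ico t₄ T ∧ t ∈ Ioo 0 T ∧
      C * (T - t) ^ α ≤ 1 / 2 := by
    intro t ht
    have h0 : 0 < T - t := by linarith [ht.2]
    have h1 : t ∈ Ico t₄ T := ⟨ht₅.1.trans ht.1, ht.2⟩
    have h2 : t ∈ Ioo 0 T := ⟨ht5.1.trans_le ht.1, ht.2⟩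
    refine ⟨h0, ?_, h1, h2, ?_⟩
    · have := hD.T1
      linarith [h2.1]
    · refine le_trans ?_ hD.sm
      exact mul_le_mul_of_nonneg_left (Real.rpow_le_rpow h0.le (by linarith [h1.1]) hα.le) hC.le
  obtain ⟨G, C'', hGc, hC'', hG⟩ := hLMN n (by omega) N M T F hD.fl x (C' + C * C' / 2) (α / 8) t₅
    (by positivity) (by positivity) ht5 (by
      intro t ht q
      obtain ⟨h0, h1, h2, h3, h4⟩ := facts t ht
      have hY1 : 1 ≤ ‖HH (n := n) F q t‖ ^ 2 := hD.Y1 t h3 q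
      have hc := centre (F q t) x (HH (n := n) F q t) (‖HH (n := n) F q t‖ ^ 2) (n : ℝ) (T - t)
        (by linarith) hn0.ne'
      rw [hc]
      refine (norm_sub_le _ _).trans ?_
      rw [norm_smul, norm_smul, Real.norm_eq_abs, Real.norm_eq_abs,
        abs_of_nonneg (by positivity : (0 : ℝ) ≤ ‖HH (n := n) F q t‖ ^ 2 / n)]
      obtain ⟨-, -, h6, -⟩ := h5 t ht
      exact est _ _ _ C C' α _ _ h0 h1 hn0 hα hC hC' (hD.yy t h2 q) h4 (by positivity) (h6 q).2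
        (norm_nonneg _) (h6 q).1 (norm_nonneg _))
  have hkey : ∀ η : ℝ, 0 < η → ∃ (Φ : M → EE N) (L : EE (n + 1) →ₗᵢ[ℝ] EE N),
      (∀ q, ‖Φ q - G q‖ ≤ η) ∧
      (∀ q, ∃ y : EE (n + 1), ‖y‖ = 1 ∧ ‖Φ q - L y‖ ≤ η) ∧
      ∀ y : EE (n + 1), ‖y‖ = 1 → ∃ q, ‖Φ q - L y‖ ≤ η := by
    intro η hη
    obtain ⟨d1, hd1, hd1'⟩ := small_rpow (by positivity : 0 < α / 8)
      (δ := η / (C' + C'')) (by positivity)
    obtain ⟨t, ht, htT⟩ : ∃ t, t ∈ Ico t₅ T ∧ T - t ≤ d1 := by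
      refine ⟨max t₅ (T - d1), ⟨le_max_left _ _, max_lt ht₅.2 (by linarith)⟩, ?_⟩
      have := le_max_right t₅ (T - d1)
      linarith
    obtain ⟨h0, h1, h2, h3, h4⟩ := facts t ht
    have hs : (T - t) ^ (α / 8) ≤ η / (C' + C'') := hd1' (T - t) h0 htT
    have hs0 : 0 ≤ (T - t) ^ (α / 8) := Real.rpow_nonneg h0.le _
    rw [le_div_iff₀ (by positivity)] at hs
    have b1 : C' * (T - t) ^ (α / 8) ≤ η := by nlinarith [mul_nonneg hC''.le hs0]
    have b2 : C'' * (T - t) ^ (α / 8) ≤ η := by nlinarith [mul_nonneg hC'.le hs0]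
    obtain ⟨-, -, -, L, hL1, hL2⟩ := h5 t ht
    refine ⟨fun q => (1 / Real.sqrt (2 * n * (T - t))) • (F q t - x), L,
      fun q => (hG t ht q).trans b2, fun q => ?_, fun y hy => ?_⟩
    · obtain ⟨y, hy, hy'⟩ := hL1 q
      exact ⟨y, hy, (resc n hn _ _ _ _ C' α h0 hC' hy').trans b1⟩
    · obtain ⟨q, hq⟩ := hL2 y hy
      exact ⟨q, (resc n hn _ _ _ _ C' α h0 hC' hq).trans b1⟩
  obtain ⟨L, hL⟩ := hLSN n N M G hGc hkey
  refine ⟨(h5 t₅ ⟨le_rfl, ht₅.2⟩).2.1, x, G, L, C + C' + C'', α / 8, t₅, hGc, hL, by positivity,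
    by positivity, by linarith [hD.α1], ⟨hts.trans ht₅.1, ht₅.2⟩, ?_⟩
  intro t ht
  obtain ⟨h0, h1, h2, h3, h4⟩ := facts t ht
  obtain ⟨hi, -, h6, -⟩ := h5 t ht
  refine ⟨hi, fun q => ?_⟩
  have hpp : (T - t) ^ α ≤ (T - t) ^ (α / 8) :=
    Real.rpow_le_rpow_of_exponent_ge h0 h1 (by linarith)
  have hs0 : 0 ≤ (T - t) ^ (α / 8) := Real.rpow_nonneg h0.le _
  have hC1 : C * (T - t) ^ α ≤ (C + C' + C'') * (T - t) ^ (α / 8) := by
    have c1 := mul_le_mul_of_nonneg_left hpp hC.le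
    have c2 := mul_nonneg hC'.le hs0
    have c3 := mul_nonneg hC''.le hs0
    nlinarith
  refine ⟨?_, ?_, ?_, ?_⟩
  · refine (h6 q).1.trans ?_
    exact mul_le_mul_of_nonneg_right (by linarith) (Real.sqrt_nonneg _)
  · refine (hG t ht q).trans ?_
    exact mul_le_mul_of_nonneg_right (by linarith) hs0
  · refine le_trans ?_ hC1
    calc (T - t) * thN n F q t ≤ (T - t) * (C * (T - t) ^ (α - 1)) :=
          mul_le_mul_of_nonneg_left (hD.th t h2 q) h0.le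
      _ = C * ((T - t) ^ (α - 1) * (T - t)) := by ring
      _ = C * (T - t) ^ α := by
          rw [← Real.rpow_add_one h0.ne']
          congr 2
          ring
  · exact (hD.yy t h2 q).trans hC1

end Helper11.HC
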